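import Mathlib
import Pool.Agent.H.MP_467638_an.C

namespace Pool.Agent.Results.MP_467638_an.Yes

open MeasureTheory ProbabilityTheory Set Module Matrix Pool.Agent.H.MP_467638_an
open scoped ENNReal InnerProductSpace

/-- the product sigma-algebra on matrices -/
instance mms {K : Type} [MeasurableSpace K] {m n : ℕ} :
    MeasurableSpace (Matrix (Fin m) (Fin n) K) := MeasurableSpace.pi

/-- squared Frobenius norm -/
noncomputable def frob2 {K : Type} [RCLike K] {m n : ℕ} (M : Matrix (Fin m) (Fin n) K) : ℝ :=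
  ∑ i, ∑ j, ‖M i j‖ ^ 2

/-- the least-squares residual -/
noncomputable def res {K : Type} [RCLike K] {n d p : ℕ} (A : Matrix (Fin n) (Fin d) K)
    (B : Matrix (Fin n) (Fin p) K) : ℝ :=
  ⨅ X : Matrix (Fin d) (Fin p) K, frob2 (B - A * X)

/-- the lower bound over the field K with constant α -/
def Stmt (K : Type) [RCLike K] [MeasurableSpace K] (α : ℕ) : Prop :=
  ∀ (n l d p r : ℕ), l ≤ n → 1 ≤ p → r ≤ d → r + α < l →
    ∀ (P : Measure (Matrix (Fin n) (Fin l) K)), IsProbabilityMeasure P → (∀ᵐ Ω ∂P, Ω.rank = l) →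
    ∀ ALG : Matrix (Fin n) (Fin l) K × Matrix (Fin l) (Fin d) K × Matrix (Fin l) (Fin p) K →
      Matrix (Fin d) (Fin p) K, Measurable ALG →
    ENNReal.ofReal (1 + ((n : ℝ) - l) / (n - r) * (r / (l - r - α))) ≤
      ⨆ (A : Matrix (Fin n) (Fin d) K) (B : Matrix (Fin n) (Fin p) K) (_ : A.rank = r)
        (_ : res A B ≠ 0),
        (∫⁻ Ω, ENNReal.ofReal (frob2 (B - A * ALG (Ω, Ωᴴ * A, Ωᴴ * B))) ∂P) /
          ENNReal.ofReal (res A B)

instance mbs {K : Type} [RCLike K] [MeasurableSpace K] [BorelSpace K] {m n : ℕ} :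
    BorelSpace (Matrix (Fin m) (Fin n) K) := Pi.borelSpace

instance msc {K : Type} [RCLike K] {m n : ℕ} :
    SecondCountableTopology (Matrix (Fin m) (Fin n) K) :=
  inferInstanceAs (SecondCountableTopology (Fin m → Fin n → K))

lemma main (K : Type) [RCLike K] [MeasurableSpace K] [BorelSpace K] (α : ℕ)
    (hβ : finrank ℝ K = 1 ∧ α = 1 ∨ finrank ℝ K = 2 ∧ α = 0) : Stmt K α := by
  intro n l d p r hl hp hd hr P _ hP ALG hA
  generalize hM : @iSup ℝ≥0∞ (Matrix (Fin n) (Fin d) K) _ _ = M
  by_cases M0 : M = ⊤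
  · exact M0 ▸ le_top
  let k : Fin p := ⟨0, hp⟩
  have cA : Continuous fun a : Fin r → V K n => mc a * pad K hd :=
    (continuous_matrix fun i j => by simp only [mc, of_apply]; fun_prop).matrix_mul
      continuous_const
  have cB : Continuous fun b : V K n => mb k b := continuous_matrix fun i j => by
    by_cases c : j = k
    · simp only [mb, mc, of_apply, c, Pi.single_eq_same]; fun_prop
    · simp only [mb, mc, of_apply, Pi.single_eq_of_ne c]; fun_prop
  have cF : Continuous (frob2 : Matrix (Fin n) (Fin p) K → ℝ) := by unfold frob2; fun_prop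
  have a : ∀ t : ℕ, finrank ℝ K * (l - r : ℕ) + (1 + finrank ℝ K * ∑ j : Fin r, ∫⁻ u, h K t u j
      ∂Measure.pi fun _ => stdGaussian (V K l)) * (finrank ℝ K * (n - l : ℕ)) ≤
      M * (finrank ℝ K * (n - r : ℕ)) := fun t => by
    let A : V K r × (Fin (r + 1) → V K n) → Matrix (Fin n) (Fin d) K := fun q =>
      mc (fun j => q.2 j.succ) * pad K hd
    let B : V K r × (Fin (r + 1) → V K n) → Matrix (Fin n) (Fin p) K := fun q =>
      mb k ((t + 1 : K) • T (fun j => q.2 j.succ) q.1 + q.2 0)
    have c1 : Continuous A := cA.comp (by fun_prop)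
    have c2 : Continuous B := cB.comp (by simp only [T_ap]; fun_prop)
    have m : Measurable fun z : Matrix (Fin n) (Fin l) K × V K r × (Fin (r + 1) → V K n) =>
        ENNReal.ofReal (frob2 (B z.2 - A z.2 * ALG (z.1, z.1ᴴ * A z.2, z.1ᴴ * B z.2))) := by
      have m1 := hA.comp (Continuous.measurable (f := fun z : Matrix (Fin n) (Fin l) K × V K r ×
        (Fin (r + 1) → V K n) => (z.1, z.1ᴴ * A z.2, z.1ᴴ * B z.2)) (by fun_prop))
      exact ((cF.comp (f := fun z : (V K r × (Fin (r + 1) → V K n)) × Matrix (Fin d) (Fin p) K =>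
        B z.1 - A z.1 * z.2) (by fun_prop)).measurable.comp
          (measurable_snd.prodMk m1)).ennreal_ofReal
    refine le_trans ?_ ((lintegral_lintegral_swap (μ := P) (ν := (stdGaussian (V K r)).prod
      (Measure.pi fun _ => stdGaussian (V K n))) (f := fun Ω q => ENNReal.ofReal
        (frob2 (B q - A q * ALG (Ω, Ωᴴ * A q, Ωᴴ * B q)))) m.aemeasurable).le.trans ?_)
    · refine le_lint (hP.mono fun Ω hΩ => ?_)
      obtain ⟨c, rfl⟩ : ∃ c, Ω = mc c := ⟨fun j => WithLp.toLp 2 fun i => Ω i j, rfl⟩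
      rw [rank_mc] at hΩ
      have e := (Submodule.span K (range c)).finrank_add_finrank_orthogonal
      rw [hΩ, finrank_euclideanSpace_fin] at e
      obtain ⟨J, L, h1, h2, h3⟩ := emb _ hΩ
      obtain ⟨J', L', h1', h2', h3'⟩ := emb (Submodule.span K (range c))ᗮ (k := n - l) (by omega)
      have := key J J' L L' h1 h1' (fun x => by
          rw [← J.norm_map, ← J'.norm_map, h2, h2',
            ← Submodule.norm_sq_eq_add_norm_sq_starProjection])
        (fun x y => h3' y _ (h3 x)) (r := r) (by rw [finrank_euclideanSpace_fin]; omega)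
        (φ := fun z => WithLp.toLp 2 fun j => (pad K hd * ALG (mc c,
          (mc c)ᴴ * (mc (fun j => J (z.1 j)) * pad K hd), (mc c)ᴴ * mb k (J z.2))) j k) (by
          have m1 := hA.comp (Continuous.measurable (f := fun z : (Fin r → V K l) × V K l =>
            (mc c, (mc c)ᴴ * (mc (fun j => J (z.1 j)) * pad K hd), (mc c)ᴴ * mb k (J z.2)))
            (continuous_const.prodMk ((continuous_const.matrix_mul (cA.comp (by fun_prop))).prodMk
              (continuous_const.matrix_mul (cB.comp (by fun_prop))))))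
          exact (Continuous.measurable (f := fun X : Matrix (Fin d) (Fin p) K =>
            (WithLp.toLp 2 fun j => (pad K hd * X) j k : V K r)) (by fun_prop)).comp m1) t
      rw [finrank_euclideanSpace_fin, rk, Nat.cast_mul] at this
      refine this.trans (lintegral_mono fun q => ?_)
      have e1 : ∀ b, (mc c)ᴴ * mb k ((Submodule.span K (range c)).starProjection b) =
          (mc c)ᴴ * mb k b := fun b => by
        rw [mb, mb, adj_mc c (Pi.single k b)]
        congr 2
        ext1 j
        by_cases z : j = k <;> simp [z]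
      simp only [A, B, frob2, e1, h2]
      rw [← Matrix.mul_assoc (mc c)ᴴ, ← adj_mc, Matrix.mul_assoc (mc c)ᴴ,
        Matrix.mul_assoc (mc fun j => q.2 (Fin.succ j))]
      generalize ALG _ = X
      rw [mb, frob_mc, en2]
      refine ENNReal.ofReal_le_ofReal (le_trans (le_of_eq ?_)
        (Finset.single_le_sum (fun _ _ => sq_nonneg _) (Finset.mem_univ k)))
      rw [Pi.single_eq_same, map_sub, map_smul, ← add_sub_assoc, add_comm]
    · have e := perp_int (𝕜 := K) (E := V K n) (r := r)
        (by rw [finrank_euclideanSpace_fin]; omega)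
      rw [finrank_euclideanSpace_fin] at e
      refine (lintegral_mono_ae (g := fun q => M * ‖(Submodule.span K (range fun j =>
        q.2 (Fin.succ j)))ᗮ.starProjection (q.2 0)‖ₑ ^ 2) ?_).trans ?_
      · filter_upwards [measurePreserving_snd.quasiMeasurePreserving.ae (li_ae (𝕜 := K)
          (E := V K n) (Finset.univ : Finset (Fin (r + 1))) (by simp; omega))] with q hq
        rw [Finset.coe_univ, linearIndepOn_univ_iff, linearIndependent_finSucc] at hq
        have e1 : res (A q) (B q) = ‖(Submodule.span K (range fun j =>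
            q.2 (Fin.succ j)))ᗮ.starProjection (q.2 0)‖ ^ 2 := by
          rw [← perp_T _ ((t + 1 : K) • q.1), map_smul, add_comm (q.2 0)]
          exact res_eq hd k _ _
        have e2 : res (A q) (B q) ≠ 0 := by
          rw [e1, sq_eq_zero_iff.ne, norm_ne_zero_iff, Ne,
            Submodule.starProjection_apply_eq_zero_iff, Submodule.orthogonal_orthogonal]
          exact hq.2
        rw [en2, ← e1, ← ENNReal.div_le_iff (by
          rw [Ne, ENNReal.ofReal_eq_zero, not_le]; exact lt_of_le_of_ne (e1 ▸ sq_nonneg _) e2.symm)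
          ENNReal.ofReal_ne_top, ← hM]
        exact le_iSup₂_of_le (A q) (B q) (le_iSup₂_of_le ((rank_pad _ _).trans ((rank_mc _).trans
          ((finrank_span_eq_card hq.1).trans (Fintype.card_fin _)))) e2 le_rfl)
      · rw [lintegral_const_mul' _ _ M0, ← e]
        refine mul_le_mul' le_rfl ((lintegral_prod_le _).trans (lint_le (ae_of_all _ fun x => ?_)))
        exact (((sp_mp (stdGaussian (V K n))).lintegral_comp_emb (sp r _).measurableEmbedding
          fun z => ‖(Submodule.span K (range z.1))ᗮ.starProjection z.2‖ₑ ^ 2).le.trans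
          (lintegral_prod_le _))
  have b := iSup_le a
  have k2 : 2 < finrank ℝ K * (l - r + 1) := by rcases hβ with ⟨q, _⟩ | ⟨q, _⟩ <;> rw [q] <;> omega
  rw [← ENNReal.add_iSup, ← ENNReal.iSup_mul, ← ENNReal.add_iSup, ← ENNReal.mul_iSup,
    ← ENNReal.finsetSum_iSup_of_monotone fun j s t q => lintegral_mono fun u => h_mono u j q] at b
  have c := (add_le_add le_rfl (mul_le_mul' (add_le_add le_rfl (mul_le_mul' le_rfl
    (Finset.sum_le_sum fun j _ => (h_int (𝕜 := K) (E := V K l) (k := l - r + 1)
      (by rw [finrank_euclideanSpace_fin]; omega) k2 j).trans (lintegral_iSup (fun t => h_meas t j)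
        fun s t q u => h_mono u j q).le))) le_rfl)).trans b
  obtain ⟨x, rfl⟩ := Nat.exists_eq_add_of_lt hr
  obtain ⟨y, rfl⟩ := Nat.exists_eq_add_of_le hl
  have b0 : (0 : ℝ) < finrank ℝ K := by exact_mod_cast finrank_pos
  lift M to NNReal using M0
  rw [show r + α + x + 1 - r = α + x + 1 by omega, show r + α + x + 1 + y - r = α + x + 1 + y by
    omega, Nat.add_sub_cancel_left, Finset.sum_const, Finset.card_fin, nsmul_eq_mul] at c
  have d := ENNReal.toReal_mono (by finiteness) c
  rw [ENNReal.toReal_add (by finiteness) (by finiteness), ENNReal.toReal_mul, ENNReal.toReal_mul,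
    ENNReal.toReal_add (by finiteness) (by finiteness)] at d
  have z : (finrank ℝ K : ℝ) * ((α + x + 1 + 1 : ℕ) : ℝ) - 2 = finrank ℝ K * (x + 1) := by
    rcases hβ with ⟨q, rfl⟩ | ⟨q, rfl⟩ <;> rw [q] <;> push_cast <;> ring
  simp only [ENNReal.toReal_mul, ENNReal.toReal_natCast, ENNReal.coe_toReal, ENNReal.toReal_one, z,
    ENNReal.toReal_ofReal (show (0 : ℝ) ≤ 1 / (finrank ℝ K * (x + 1)) by positivity)] at d
  refine ENNReal.ofReal_le_coe.2 (le_of_mul_le_mul_right (le_of_eq_of_le ?_ d) (by positivity))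
  push_cast
  rw [show (r : ℝ) + α + x + 1 + y - r = α + x + 1 + y by ring,
    show (r : ℝ) + α + x + 1 - r - α = x + 1 by ring]
  field_simp
  ring

theorem result : Stmt ℝ 1 ∧ Stmt ℂ 0 :=
  ⟨main ℝ 1 (Or.inl ⟨finrank_self ℝ, rfl⟩), main ℂ 0 (Or.inr ⟨Complex.finrank_real_complex, rfl⟩)⟩

end Pool.Agent.Results.MP_467638_an.Yes
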